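import Pool.Agent.Lib.MP_6bc78b_nt.MS.P5.Iface

/-! Project MS, Part V, module MAXM: the largest multiplicity. -/

set_option autoImplicit false

open Complex Filter Topology MeasureTheory ArithmeticFunction

namespace Pool.Agent.Lib.MP_6bc78b_nt.MS.P5.H91

open Pool.Agent.Lib.MP_6bc78b_nt.MS.P1

lemma sum_inv_sqrt_le (N : ℕ) :
    ∑ n ∈ Finset.Icc 1 N, (1 : ℝ) / Real.sqrt n ≤ 2 * Real.sqrt N := by
  induction N with
  | zero => simp
  | succ N ih =>
    rw [Finset.sum_Icc_succ_top (by omega)]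
    have h1 : 0 < Real.sqrt ((N + 1 : ℕ) : ℝ) := Real.sqrt_pos.2 (by positivity)
    have h2 : 0 ≤ Real.sqrt (N : ℝ) := Real.sqrt_nonneg _
    have h3 : Real.sqrt ((N + 1 : ℕ) : ℝ) ^ 2 = (N : ℝ) + 1 := by
      rw [Real.sq_sqrt (by positivity)]; push_cast; ring
    have h4 : Real.sqrt (N : ℝ) ^ 2 = (N : ℝ) := Real.sq_sqrt (by positivity)
    have h5 : (1 : ℝ) / Real.sqrt ((N + 1 : ℕ) : ℝ) ≤
        2 * Real.sqrt ((N + 1 : ℕ) : ℝ) - 2 * Real.sqrt (N : ℝ) := by
      rw [div_le_iff₀ h1]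
      nlinarith [sq_nonneg (Real.sqrt ((N + 1 : ℕ) : ℝ) - Real.sqrt (N : ℝ))]
    linarith

lemma abs_bb_le {lam T : ℝ} (hlam : 0 < lam) (hT : 1 < T) {n : ℕ} (hn : 1 ≤ n)
    (hn2 : (n : ℝ) ≤ T ^ lam) : |bb lam T n| ≤ 1 := by
  have hlog : 0 < Real.log T := Real.log_pos hT
  have hL1 : 0 < lam * Real.log T := by positivity
  have hn0 : (1 : ℝ) ≤ n := by exact_mod_cast hn
  have hlogn0 : 0 ≤ Real.log n := Real.log_nonneg hn0
  have hlogn : Real.log n ≤ lam * Real.log T := by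
    have := Real.log_le_log (by linarith) hn2
    rwa [Real.log_rpow (by linarith)] at this
  have h1 : bb lam T n = ArithmeticFunction.vonMangoldt n *
      (1 - Real.log n / (lam * Real.log T)) / (lam * Real.log T) := by
    have : bb lam T n = bbf lam T n := rfl
    rw [this, bbf, if_pos hn2]
  have hv0 : 0 ≤ ArithmeticFunction.vonMangoldt n := ArithmeticFunction.vonMangoldt_nonneg
  have hv1 : ArithmeticFunction.vonMangoldt n ≤ Real.log n :=
    ArithmeticFunction.vonMangoldt_le_log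
  have h2 : 0 ≤ 1 - Real.log n / (lam * Real.log T) := by
    rw [sub_nonneg, div_le_one hL1]; exact hlogn
  have h3 : 1 - Real.log n / (lam * Real.log T) ≤ 1 := by
    have : 0 ≤ Real.log n / (lam * Real.log T) := by positivity
    linarith
  rw [h1, abs_of_nonneg (by positivity), div_le_one hL1]
  calc ArithmeticFunction.vonMangoldt n * (1 - Real.log n / (lam * Real.log T))
      ≤ ArithmeticFunction.vonMangoldt n * 1 := mul_le_mul_of_nonneg_left h3 hv0
    _ ≤ lam * Real.log T := by linarith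

lemma norm_BB_le {lam T : ℝ} (hlam : 0 < lam) (hT : 1 < T) (γ : ℝ) :
    ‖BB lam T (1 / 2 + γ * I)‖ ≤ 2 * Real.sqrt (T ^ lam) := by
  unfold BB dpoly
  have hz : 0 ≤ T ^ lam := by positivity
  calc _ ≤ ∑ n ∈ Finset.Icc 1 ⌊T ^ lam⌋₊,
        ‖((bb lam T n : ℝ) : ℂ) * (n : ℂ) ^ (-(1 / 2 + γ * I : ℂ))‖ := norm_sum_le _ _
    _ ≤ ∑ n ∈ Finset.Icc 1 ⌊T ^ lam⌋₊, (1 : ℝ) / Real.sqrt n := by
        apply Finset.sum_le_sum
        intro n hn
        rw [Finset.mem_Icc] at hn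
        have hn0 : 0 < n := by omega
        have hn2 : (n : ℝ) ≤ T ^ lam := (Nat.le_floor_iff hz).1 hn.2
        have h1 := abs_bb_le hlam hT hn.1 hn2
        have hnr : (0 : ℝ) < n := by exact_mod_cast hn0
        rw [norm_mul, Complex.norm_real, Real.norm_eq_abs, Complex.norm_natCast_cpow_of_pos hn0]
        have h2 : (-(1 / 2 + γ * I : ℂ)).re = -(1 / 2) := by simp
        rw [h2, Real.rpow_neg hnr.le, ← Real.sqrt_eq_rpow, one_div]
        have h3 : 0 ≤ (Real.sqrt (n : ℝ))⁻¹ := by positivity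
        nlinarith
    _ ≤ 2 * Real.sqrt (⌊T ^ lam⌋₊ : ℝ) := sum_inv_sqrt_le _
    _ ≤ 2 * Real.sqrt (T ^ lam) := by
        have := Real.sqrt_le_sqrt (Nat.floor_le hz)
        linarith

lemma ev_L (C : ℝ) : ∀ᶠ L : ℝ in atTop, 1 ≤ 9 / 5 * Real.log L ∧ 2 * Real.log L ≤ L ∧
    1 ≤ L ∧ 2 * (L / (18 / 5 * Real.log L) + C / (9 / 5 * Real.log L) +
      2 * L ^ (9 / 10 : ℝ)) ≤ 3 / 5 * L / Real.log L := by
  have h1 : ∀ᶠ L : ℝ in atTop, 1 ≤ 9 / 5 * Real.log L := by
    filter_upwards [Real.tendsto_log_atTop.eventually_ge_atTop 1] with L hL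
    linarith
  have h0 : Tendsto (fun L : ℝ => Real.log L / L ^ (1 / 10 : ℝ)) atTop (𝓝 0) :=
    (isLittleO_log_rpow_atTop (by norm_num : (0 : ℝ) < 1 / 10)).tendsto_div_nhds_zero
  have h00 : Tendsto (fun L : ℝ => Real.log L / L ^ (1 : ℝ)) atTop (𝓝 0) :=
    (isLittleO_log_rpow_atTop (by norm_num : (0 : ℝ) < 1)).tendsto_div_nhds_zero
  have h2 : ∀ᶠ L : ℝ in atTop, Real.log L / L ^ (1 : ℝ) < 1 / 2 :=
    h00.eventually_lt_const (by norm_num)
  have h3 : Tendsto (fun L : ℝ => 5 / 9 + 10 / 9 * C / L +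
      4 * (Real.log L / L ^ (1 / 10 : ℝ))) atTop (𝓝 (5 / 9 + 0 + 4 * 0)) := by
    apply Tendsto.add
    · apply Tendsto.add tendsto_const_nhds
      exact tendsto_const_nhds.div_atTop tendsto_id
    · exact h0.const_mul 4
  have h4 : ∀ᶠ L : ℝ in atTop, 5 / 9 + 10 / 9 * C / L +
      4 * (Real.log L / L ^ (1 / 10 : ℝ)) < 3 / 5 := h3.eventually_lt_const (by norm_num)
  filter_upwards [h1, h2, h4, eventually_ge_atTop 1] with L a1 a2 a4 a5
  have hL0 : 0 < L := by linarith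
  have hl : 0 < Real.log L := by linarith
  refine ⟨a1, ?_, a5, ?_⟩
  · rw [Real.rpow_one, div_lt_iff₀ hL0] at a2
    linarith
  · have e1 : L ^ (9 / 10 : ℝ) = L / L ^ (1 / 10 : ℝ) := by
      rw [show (9 / 10 : ℝ) = 1 - 1 / 10 by norm_num, Real.rpow_sub hL0, Real.rpow_one]
    have hp : 0 < L ^ (1 / 10 : ℝ) := by positivity
    have e2 : 2 * (L / (18 / 5 * Real.log L) + C / (9 / 5 * Real.log L) +
        2 * L ^ (9 / 10 : ℝ)) = (5 / 9 + 10 / 9 * C / L +
      4 * (Real.log L / L ^ (1 / 10 : ℝ))) * (L / Real.log L) := by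
      rw [e1]
      field_simp
      ring
    have e3 : 3 / 5 * L / Real.log L = 3 / 5 * (L / Real.log L) := by ring
    rw [e2, e3]
    apply mul_le_mul_of_nonneg_right a4.le
    positivity

theorem maxm (h : PtuStatement) : MaxmStatement := by
  obtain ⟨C, T0, hC, hT0, h⟩ := h
  have h1 := Real.tendsto_log_atTop.eventually (ev_L C)
  unfold MaxmStatement
  filter_upwards [h1, eventually_ge_atTop T0] with T hT hTT γ hγ
  obtain ⟨b1, b2, b3, b4⟩ := hT
  set L := Real.log T with hL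
  have hT1 : 1 < T := by linarith
  have hT00 : 0 < T := by linarith
  have hL0 : 0 < L := by linarith
  have hl : 0 < Real.log L := by linarith
  set lam : ℝ := 9 / 5 * Real.log L / L with hlam
  have hlam0 : 0 < lam := by positivity
  have h2 : 1 / L ≤ lam := by
    rw [hlam, div_le_div_iff_of_pos_right hL0]
    exact b1
  have h3 : lam ≤ 9 / 10 := by
    rw [hlam, div_le_iff₀ hL0]
    linarith
  have h4 := h T lam hTT h2 h3 γ hγ
  have h5 := norm_BB_le hlam0 hT1 γ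
  have h6 : Real.sqrt (T ^ lam) = L ^ (9 / 10 : ℝ) := by
    rw [Real.sqrt_eq_rpow, ← Real.rpow_mul hT00.le, Real.rpow_def_of_pos hT00,
      Real.rpow_def_of_pos hL0, ← hL]
    congr 1
    rw [hlam]
    field_simp
    ring
  rw [h6] at h5
  have h7 : -(2 * L ^ (9 / 10 : ℝ)) ≤ (BB lam T (1 / 2 + γ * I)).re := by
    have := abs_le.1 ((Complex.abs_re_le_norm _).trans h5)
    exact this.1
  have h8 : 1 / (2 * lam) = L / (18 / 5 * Real.log L) := by
    rw [hlam]; field_simp; norm_num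
  have h9 : C / (lam * L) = C / (9 / 5 * Real.log L) := by
    rw [hlam]; field_simp
  rw [h8, h9] at h4
  have h10 : (mz γ : ℝ) ≤ 2 * (L / (18 / 5 * Real.log L) + C / (9 / 5 * Real.log L) +
      2 * L ^ (9 / 10 : ℝ)) := by linarith
  exact h10.trans b4

end Pool.Agent.Lib.MP_6bc78b_nt.MS.P5.H91
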